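import Mathlib

namespace Pool.Agent.MP_0b991d_co

/-- The edges of G that have not yet been given a direction; D is the set of directed edges. -/
def undirected {V : Type} (G : SimpleGraph V) (D : Finset (V × V)) : Set (Sym2 V) :=
  {e | e ∈ G.edgeSet ∧ ∀ x ∈ D, s(x.1, x.2) ≠ e}

/-- The directed edges contain a directed cycle. -/
def HasDirCycle {V : Type} (D : Finset (V × V)) : Prop :=
  ∃ v, Relation.TransGen (fun x y => (x, y) ∈ D) v v

/-- S is a legal move of OBreaker in position D: it directs distinct undirected edges; under the
strict rules exactly b of them (all, if fewer remain), under the monotone rules between 1 and b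
(none only if no edge remains). -/
def BreakerMove {V : Type} (strict : Bool) (b : ℕ) (G : SimpleGraph V)
    (D S : Finset (V × V)) : Prop :=
  (∀ x ∈ S, s(x.1, x.2) ∈ undirected G D) ∧
  Set.InjOn (fun x : V × V => s(x.1, x.2)) S ∧
  if strict then S.card = min b (undirected G D).ncard
  else min 1 (undirected G D).ncard ≤ S.card ∧ S.card ≤ b

/-- OMaker, to move in position D of the b-biased orientation game on G, has a strategy that
produces a directed cycle in the final orientation. -/
inductive MakerWins {V : Type} [DecidableEq V] (strict : Bool) (b : ℕ) (G : SimpleGraph V) :
    Finset (V × V) → Prop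
  | finished (D : Finset (V × V)) :
      undirected G D = ∅ → HasDirCycle D → MakerWins strict b G D
  | move (D : Finset (V × V)) (x : V × V) :
      s(x.1, x.2) ∈ undirected G D →
      (∀ S, BreakerMove strict b G (insert x D) S → MakerWins strict b G (insert x D ∪ S)) →
      MakerWins strict b G D

end Pool.Agent.MP_0b991d_co
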