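import Pool.Agent.MP_0b991d_co.Upper

namespace Pool.Agent.MP_0b991d_co

open MeasureTheory Filter SimpleGraph
open scoped Topology unitInterval

variable {V : Type} [DecidableEq V] [Fintype V]

instance instSingleton : MeasurableSingletonClass (SimpleGraph V) where
  measurableSet_singleton G := by
    have : ({G} : Set (SimpleGraph V)) = edgeSet ⁻¹' {G.edgeSet} := by
      ext H
      simp
    rw [this]
    exact measurable_edgeSet (measurableSet_singleton _)

omit [DecidableEq V] in
theorem measurableSet_graphs (S : Set (SimpleGraph V)) : MeasurableSet S :=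
  (Set.toFinite S).measurableSet

open Classical in
/-- exponential moment bound -/
theorem prob_le (p : I) (A : Finset (Sym2 V)) (hA : ∀ e ∈ A, ¬ e.IsDiag) (s c : ℝ) (hs : 0 ≤ s)
    (hc : 0 ≤ c) (Bad : Set (SimpleGraph V))
    (hBad : ∀ G ∈ Bad, 1 ≤ c * s ^ (A.filter (· ∈ G.edgeSet)).card) :
    (binomialRandom V p).real Bad ≤ c * (1 + (p : ℝ) * (s - 1)) ^ A.card := by
  set Ω : Finset (Sym2 V) := (⊤ : SimpleGraph V).edgeFinset with hΩ
  have hΩc : Ω.card = (Nat.card V).choose 2 := by
    rw [hΩ, card_edgeFinset_top_eq_card_choose_two, Nat.card_eq_fintype_card]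
  have hAΩ : A ⊆ Ω := by
    intro e he
    rw [hΩ, mem_edgeFinset, edgeSet_top]
    exact hA e he
  have hp0 : (0 : ℝ) ≤ p := p.2.1
  have hp1 : (0 : ℝ) ≤ 1 - p := by linarith [p.2.2]
  set w : Finset (Sym2 V) → ℝ := fun F =>
    (∏ e ∈ F, ((p : ℝ) * if e ∈ A then s else 1)) * ∏ _e ∈ Ω \ F, (1 - (p : ℝ)) with hw
  have hw0 : ∀ F, 0 ≤ w F := by
    intro F
    apply mul_nonneg
    · apply Finset.prod_nonneg
      intro e _
      apply mul_nonneg hp0
      split_ifs
      · exact hs
      · exact zero_le_one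
    · exact Finset.prod_nonneg fun _ _ => hp1
  have hsingle : ∀ G : SimpleGraph V, (binomialRandom V p).real {G} *
      s ^ (A.filter (· ∈ G.edgeSet)).card = w G.edgeFinset := by
    intro G
    have hG : G.edgeFinset ⊆ Ω := edgeFinset_mono le_top
    rw [Measure.real, binomialRandom_singleton, hw]
    simp only [ENNReal.toReal_mul, ENNReal.toReal_pow, ENNReal.coe_toReal,
      unitInterval.coe_toNNReal, unitInterval.coe_symm_eq, Finset.prod_mul_distrib,
      Finset.prod_const, Finset.card_sdiff_of_subset hG, hΩc]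
    rw [Finset.prod_ite, Finset.prod_const, Finset.prod_const_one, mul_one,
      Set.ncard_eq_toFinset_card']
    have : (G.edgeFinset.filter (· ∈ A)).card = (A.filter (· ∈ G.edgeSet)).card := by
      congr 1
      ext e
      simp [and_comm]
    rw [this]
    simp only [edgeFinset]
    ring
  have hsum : ∑ F ∈ Ω.powerset, w F = (1 + (p : ℝ) * (s - 1)) ^ A.card := by
    rw [hw, ← Finset.prod_add]
    rw [← Finset.prod_sdiff hAΩ]
    rw [Finset.prod_eq_one, one_mul, ← Finset.prod_const]
    · apply Finset.prod_congr rfl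
      intro e he
      rw [if_pos he]; ring
    · intro e he
      rw [if_neg (Finset.mem_sdiff.mp he).2]; ring
  have h1 : (binomialRandom V p).real Bad = ∑ G ∈ Bad.toFinset, (binomialRandom V p).real {G} := by
    rw [sum_measureReal_singleton]
    simp
  rw [h1, ← hsum, Finset.mul_sum]
  calc ∑ G ∈ Bad.toFinset, (binomialRandom V p).real {G}
      ≤ ∑ G ∈ Bad.toFinset, c * w G.edgeFinset := by
        apply Finset.sum_le_sum
        intro G hG
        rw [← hsingle G]
        have h2 := hBad G (by simpa using hG)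
        have h3 : 0 ≤ (binomialRandom V p).real {G} := measureReal_nonneg
        nlinarith
    _ = ∑ F ∈ Bad.toFinset.image (fun G : SimpleGraph V => G.edgeFinset), c * w F := by
        rw [Finset.sum_image]
        intro G _ H _ e
        exact edgeFinset_inj.mp e
    _ ≤ ∑ F ∈ Ω.powerset, c * w F := by
        apply Finset.sum_le_sum_of_subset_of_nonneg
        · intro F hF
          obtain ⟨G, -, rfl⟩ := Finset.mem_image.mp hF
          exact Finset.mem_powerset.mpr (edgeFinset_mono le_top)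
        · intro F _ _
          exact mul_nonneg hc (hw0 F)

theorem one_add_pow_le_exp {x : ℝ} (hx : 0 ≤ 1 + x) (k : ℕ) :
    (1 + x) ^ k ≤ Real.exp (k * x) := by
  rw [Real.exp_nat_mul]
  exact pow_le_pow_left₀ hx (by linarith [Real.add_one_le_exp x]) k

/-- lower bound, quantitative form -/
theorem prob_not_wins (strict : Bool) {ε : ℝ} (hε : 0 < ε) (n b : ℕ) (p : I) (hb : 1 ≤ b)
    (h : (b : ℝ) + 1 ≤ (1 / 2 - ε) * n * p) :
    (binomialRandom (Fin n) p).real {G | ¬ MakerWins strict b G ∅} ≤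
      Real.exp (-(2 * ε ^ 2) * ((n : ℝ) - 1)) := by
  classical
  have hp0 : (0 : ℝ) ≤ p := p.2.1
  have hp1 : (p : ℝ) ≤ 1 := p.2.2
  have hb' : (1 : ℝ) ≤ b := by exact_mod_cast hb
  have hnp0 : (0 : ℝ) ≤ n * p := by positivity
  have hε2 : ε < 1 / 2 := by
    by_contra hcon
    have : (1 / 2 - ε) * (n * p) ≤ 0 := mul_nonpos_of_nonpos_of_nonneg (by linarith) hnp0
    nlinarith
  have hnp : (4 : ℝ) ≤ n * p := by nlinarith
  have hn1 : 1 ≤ n := by
    by_contra hcon
    have : n = 0 := by omega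
    subst this
    simp at hnp
    linarith
  have hn1' : (1 : ℝ) ≤ n := by exact_mod_cast hn1
  set a : ℕ := (b + 1) * (n - 1) with ha
  have haR : (a : ℝ) = (b + 1) * ((n : ℝ) - 1) := by
    rw [ha]; push_cast [Nat.cast_sub hn1]; ring
  have hs0 : 0 < 1 - ε := by linarith
  have key := prob_le p (⊤ : SimpleGraph (Fin n)).edgeFinset
    (fun e he => by rw [mem_edgeFinset, edgeSet_top] at he; exact he) (1 - ε)
    ((1 - ε) ^ a)⁻¹ hs0.le (by positivity) {G | ¬ MakerWins strict b G ∅} (by
      intro G hG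
      rw [inv_mul_eq_div, le_div_iff₀ (by positivity), one_mul]
      apply pow_le_pow_of_le_one hs0.le (by linarith)
      by_contra hlt
      apply hG
      apply makerWins_of_dense Finset.univ
        ((⊤ : SimpleGraph (Fin n)).edgeFinset.filter (· ∈ G.edgeSet))
      · intro e he
        exact ⟨(Finset.mem_filter.mp he).2, fun v _ => Finset.mem_univ v⟩
      · simpa [ha] using not_le.mp hlt)
  refine key.trans ?_
  rw [card_edgeFinset_top_eq_card_choose_two, Fintype.card_fin]
  have hN : ((n.choose 2 : ℕ) : ℝ) = n * ((n : ℝ) - 1) / 2 := Nat.cast_choose_two ℝ n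
  have h1 := one_add_pow_le_exp (x := (p : ℝ) * (1 - ε - 1)) (by nlinarith) (n.choose 2)
  have h2 : ((1 - ε) ^ a)⁻¹ ≤ Real.exp (a * (ε / (1 - ε))) := by
    rw [← inv_pow]
    have : (1 - ε)⁻¹ = 1 + ε / (1 - ε) := by field_simp; ring
    rw [this]
    exact one_add_pow_le_exp (by positivity) a
  refine (mul_le_mul h2 h1 (pow_nonneg (by nlinarith) _) (Real.exp_pos _).le).trans ?_
  rw [← Real.exp_add]
  apply Real.exp_le_exp.mpr
  rw [hN, haR]
  have h3 : ε / (1 - ε) * (1 / 2 - ε) ≤ ε * (1 - ε) / 2 := by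
    rw [div_mul_eq_mul_div, div_le_iff₀ hs0]
    nlinarith [mul_pos hε (mul_pos hε hε)]
  have h4 : 0 ≤ ε / (1 - ε) := by positivity
  have h5 : ((b : ℝ) + 1) * (ε / (1 - ε)) ≤ (n * p) * (ε * (1 - ε) / 2) := by
    calc ((b : ℝ) + 1) * (ε / (1 - ε)) ≤ ((1 / 2 - ε) * n * p) * (ε / (1 - ε)) :=
          mul_le_mul_of_nonneg_right h h4
      _ = (n * p) * (ε / (1 - ε) * (1 / 2 - ε)) := by ring
      _ ≤ _ := mul_le_mul_of_nonneg_left h3 hnp0
  have h6 : (0 : ℝ) ≤ n - 1 := by linarith
  have h7 := mul_le_mul_of_nonneg_left h5 h6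
  have h8 : ((n : ℝ) - 1) * (ε ^ 2 * 4) ≤ ((n : ℝ) - 1) * (ε ^ 2 * (n * p)) :=
    mul_le_mul_of_nonneg_left (mul_le_mul_of_nonneg_left hnp (by positivity)) h6
  nlinarith

theorem lower_tendsto (strict : Bool) {ε : ℝ} (hε : 0 < ε) (p : ℕ → I) (b : ℕ → ℕ)
    (h : ∀ᶠ n : ℕ in atTop, 1 ≤ b n ∧ (b n : ℝ) + 1 ≤ (1 / 2 - ε) * n * p n) :
    Tendsto (fun n : ℕ => (binomialRandom (Fin n) (p n)).real {G | MakerWins strict (b n) G ∅})
      atTop (𝓝 1) := by
  have h0 : Tendsto (fun n : ℕ => Real.exp (-(2 * ε ^ 2) * ((n : ℝ) - 1))) atTop (𝓝 0) := by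
    apply Real.tendsto_exp_atBot.comp
    apply Tendsto.const_mul_atTop_of_neg (by have := sq_pos_of_pos hε; linarith)
    exact tendsto_atTop_add_const_right _ _ tendsto_natCast_atTop_atTop
  have h1 : Tendsto (fun n : ℕ => (binomialRandom (Fin n) (p n)).real
      {G | ¬ MakerWins strict (b n) G ∅}) atTop (𝓝 0) := by
    apply squeeze_zero' (Eventually.of_forall fun _ => measureReal_nonneg) _ h0
    filter_upwards [h] with n hn
    exact prob_not_wins strict hε n (b n) (p n) hn.1 hn.2
  have h2 := h1.const_sub 1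
  rw [sub_zero] at h2
  refine h2.congr fun n => ?_
  have := probReal_compl_eq_one_sub (μ := binomialRandom (Fin n) (p n))
    (measurableSet_graphs {G | ¬ MakerWins strict (b n) G ∅})
  rw [← this]
  congr 1
  ext G
  simp

end Pool.Agent.MP_0b991d_co
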