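import Pool.Agent.MP_0b991d_co.Defs

namespace Pool.Agent.MP_0b991d_co

variable {V : Type} [DecidableEq V] [Fintype V] {G : SimpleGraph V} {strict : Bool} {b : ℕ}

omit [DecidableEq V] [Fintype V] in
theorem undirected_anti {D D' : Finset (V × V)} (h : D ⊆ D') :
    undirected G D' ⊆ undirected G D :=
  fun _ he => ⟨he.1, fun x hx => he.2 x (h hx)⟩

omit [Fintype V] in
theorem mem_undirected_union {D S : Finset (V × V)} {e : Sym2 V} :
    e ∈ undirected G (D ∪ S) ↔ e ∈ undirected G D ∧ ∀ x ∈ S, s(x.1, x.2) ≠ e := by
  constructor
  · intro h
    exact ⟨⟨h.1, fun x hx => h.2 x (Finset.mem_union_left _ hx)⟩,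
      fun x hx => h.2 x (Finset.mem_union_right _ hx)⟩
  · rintro ⟨h1, h2⟩
    refine ⟨h1.1, fun x hx => ?_⟩
    rcases Finset.mem_union.mp hx with hx | hx
    · exact h1.2 x hx
    · exact h2 x hx

omit [Fintype V] in
theorem mem_undirected_insert {D : Finset (V × V)} {x : V × V} {e : Sym2 V} :
    e ∈ undirected G (insert x D) ↔ e ∈ undirected G D ∧ s(x.1, x.2) ≠ e := by
  constructor
  · intro h
    exact ⟨⟨h.1, fun y hy => h.2 y (Finset.mem_insert_of_mem hy)⟩,
      h.2 x (Finset.mem_insert_self _ _)⟩
  · rintro ⟨h1, h2⟩
    refine ⟨h1.1, fun y hy => ?_⟩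
    rcases Finset.mem_insert.mp hy with rfl | hy
    · exact h2
    · exact h1.2 y hy

omit [DecidableEq V] [Fintype V] in
theorem HasDirCycle.mono {D D' : Finset (V × V)} (h : D ⊆ D') (hc : HasDirCycle D) :
    HasDirCycle D' := by
  obtain ⟨v, hv⟩ := hc
  exact ⟨v, Relation.TransGen.mono (fun _ _ hxy => h hxy) _ _ hv⟩

omit [DecidableEq V] [Fintype V] in
theorem BreakerMove.card_le {D S : Finset (V × V)} (h : BreakerMove strict b G D S) :
    S.card ≤ b := by
  have h3 := h.2.2
  cases strict
  · simp only [Bool.false_eq_true, if_false] at h3
    exact h3.2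
  · simp only [if_true] at h3
    rw [h3]; exact min_le_left _ _

theorem wins_of_cycle (D : Finset (V × V)) (hc : HasDirCycle D) : MakerWins strict b G D := by
  induction hn : (undirected G D).ncard using Nat.strong_induction_on generalizing D with
  | _ n ih =>
    rcases Set.eq_empty_or_nonempty (undirected G D) with he | ⟨e, he⟩
    · exact MakerWins.finished D he hc
    · induction e using Sym2.ind with
      | _ u v =>
        refine MakerWins.move D (u, v) he fun S _ => ?_
        have hsub : D ⊆ insert (u, v) D ∪ S :=
          (Finset.subset_insert _ _).trans Finset.subset_union_left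
        refine ih _ ?_ _ (hc.mono hsub) rfl
        rw [← hn]
        apply Set.ncard_lt_ncard _ (Set.toFinite _)
        refine ⟨undirected_anti hsub, fun h => ?_⟩
        exact (h he).2 (u, v) (Finset.mem_union_left _ (Finset.mem_insert_self _ _)) rfl

open Classical in
theorem dfs (E₀ : Finset (Sym2 V)) (n : ℕ) : ∀ (D : Finset (V × V)) (P : List V) (U : Finset V),
    2 * U.card + P.length = n →
    P.Pairwise (fun a c => Relation.ReflTransGen (fun x y => (x, y) ∈ D) c a) →
    (∀ e ∈ E₀, e ∈ undirected G D → ∀ v ∈ e, v ∈ P ∨ v ∈ U) →
    (b + 1) * (U.card - if P = [] then 1 else 0) < (E₀.filter (· ∈ undirected G D)).card →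
    MakerWins strict b G D := by
  induction n using Nat.strong_induction_on with
  | _ n ih =>
    intro D P U hn hP hE hc
    cases P with
    | nil =>
      obtain ⟨e, he⟩ := Finset.card_pos.mp (lt_of_le_of_lt (Nat.zero_le _) hc)
      rw [Finset.mem_filter] at he
      induction e using Sym2.ind with
      | _ u v =>
        have hu : u ∈ U := by simpa using hE _ he.1 he.2 u (Sym2.mem_mk_left u v)
        have hcard := Finset.card_erase_of_mem hu
        have hpos := Finset.card_pos.mpr ⟨u, hu⟩
        refine ih _ ?_ D [u] (U.erase u) rfl (List.pairwise_singleton _ _) ?_ ?_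
        · simp only [List.length_nil, List.length_singleton] at hn ⊢
          omega
        · intro e' he' hund z hz
          have hz' : z ∈ U := by simpa using hE _ he' hund z hz
          by_cases hzu : z = u
          · left; simp [hzu]
          · right; exact Finset.mem_erase.mpr ⟨hzu, hz'⟩
        · simpa [hcard] using hc
    | cons v P' =>
      by_cases h : ∃ w, s(v, w) ∈ E₀ ∧ s(v, w) ∈ undirected G D
      · obtain ⟨w, hw1, hw2⟩ := h
        have hwv : v ≠ w := (G.mem_edgeSet.mp hw2.1).ne
        refine MakerWins.move D (v, w) hw2 fun S hS => ?_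
        have hsub : D ⊆ insert (v, w) D ∪ S :=
          (Finset.subset_insert _ _).trans Finset.subset_union_left
        have hvw : (v, w) ∈ insert (v, w) D ∪ S :=
          Finset.mem_union_left _ (Finset.mem_insert_self _ _)
        have hP' : (v :: P').Pairwise (fun a c => Relation.ReflTransGen
            (fun x y => (x, y) ∈ insert (v, w) D ∪ S) c a) :=
          hP.imp fun hac => Relation.ReflTransGen.mono (fun _ _ hxy => hsub hxy) _ _ hac
        by_cases hwP : w ∈ v :: P'
        · apply wins_of_cycle
          rcases List.mem_cons.mp hwP with rfl | hwP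
          · exact absurd rfl hwv
          · exact ⟨v, Relation.TransGen.head' hvw ((List.pairwise_cons.mp hP').1 w hwP)⟩
        · have hwU : w ∈ U := (hE _ hw1 hw2 w (Sym2.mem_mk_right v w)).resolve_left hwP
          have hcard := Finset.card_erase_of_mem hwU
          have hpos := Finset.card_pos.mpr ⟨w, hwU⟩
          refine ih _ ?_ _ (w :: v :: P') (U.erase w) rfl ?_ ?_ ?_
          · simp only [List.length_cons] at hn ⊢
            omega
          · refine List.pairwise_cons.mpr ⟨?_, hP'⟩
            intro c hc'
            rcases List.mem_cons.mp hc' with rfl | hc'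
            · exact Relation.ReflTransGen.single hvw
            · exact ((List.pairwise_cons.mp hP').1 c hc').tail hvw
          · intro e he hund z hz
            rcases hE e he (undirected_anti hsub hund) z hz with h1 | h1
            · left; exact List.mem_cons_of_mem _ h1
            · by_cases hzw : z = w
              · left; simp [hzw]
              · right; exact Finset.mem_erase.mpr ⟨hzw, h1⟩
          · have hsub2 : E₀.filter (· ∈ undirected G D) ⊆
                E₀.filter (· ∈ undirected G (insert (v, w) D ∪ S)) ∪
                  (insert (v, w) S).image (fun x : V × V => s(x.1, x.2)) := by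
              intro e he
              rw [Finset.mem_filter] at he
              by_cases him : e ∈ (insert (v, w) S).image (fun x : V × V => s(x.1, x.2))
              · exact Finset.mem_union_right _ him
              · apply Finset.mem_union_left
                rw [Finset.mem_filter, mem_undirected_union, mem_undirected_insert]
                refine ⟨he.1, ⟨he.2, fun h => him ?_⟩, fun x hx h => him ?_⟩
                · exact Finset.mem_image.mpr ⟨(v, w), Finset.mem_insert_self _ _, h⟩
                · exact Finset.mem_image.mpr ⟨x, Finset.mem_insert_of_mem hx, h⟩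
            have h1 := Finset.card_le_card hsub2
            have h2 := Finset.card_union_le (E₀.filter (· ∈ undirected G (insert (v, w) D ∪ S)))
              ((insert (v, w) S).image (fun x : V × V => s(x.1, x.2)))
            have h3 := Finset.card_image_le (s := insert (v, w) S)
              (f := fun x : V × V => s(x.1, x.2))
            have h4 := Finset.card_insert_le (v, w) S
            have h5 := hS.card_le
            simp only [reduceCtorEq, if_false, Nat.sub_zero] at hc ⊢
            rw [hcard]
            obtain ⟨k, hk⟩ : ∃ k, U.card = k + 1 := ⟨U.card - 1, by omega⟩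
            rw [hk] at hc ⊢
            rw [Nat.add_sub_cancel]
            rw [mul_add] at hc
            omega
      · push Not at h
        refine ih _ ?_ D P' U rfl (List.pairwise_cons.mp hP).2 ?_ ?_
        · simp only [List.length_cons] at hn
          omega
        · intro e he hund z hz
          rcases hE e he hund z hz with h1 | h1
          · rcases List.mem_cons.mp h1 with rfl | h1
            · obtain ⟨y, rfl⟩ := Sym2.mem_iff_exists.mp hz
              exact absurd hund (h y he)
            · exact Or.inl h1
          · exact Or.inr h1
        · refine lt_of_le_of_lt (Nat.mul_le_mul_left _ ?_) hc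
          simp only [reduceCtorEq, if_false, Nat.sub_zero]
          exact Nat.sub_le _ _

/-- If some set of more than (b+1)(|W|-1) edges of G lies inside W, OMaker wins. -/
theorem makerWins_of_dense (W : Finset V) (E₀ : Finset (Sym2 V))
    (hE : ∀ e ∈ E₀, e ∈ G.edgeSet ∧ ∀ v ∈ e, v ∈ W)
    (hc : (b + 1) * (W.card - 1) < E₀.card) : MakerWins strict b G ∅ := by
  classical
  refine dfs E₀ _ ∅ [] W rfl List.Pairwise.nil (fun e he _ v hv => Or.inr ((hE e he).2 v hv)) ?_
  rw [Finset.filter_true_of_mem]
  · simpa using hc
  · intro e he
    exact ⟨(hE e he).1, by simp⟩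

end Pool.Agent.MP_0b991d_co
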