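import Pool.Agent.MP_0b991d_co.Prob

namespace Pool.Agent.MP_0b991d_co

open MeasureTheory Filter SimpleGraph
open scoped Topology unitInterval

open Classical in
theorem prob_dense_set {ε C : ℝ} (hε : 0 < ε) (hC4 : 4 ≤ C) (hCL : 6 ≤ C * Real.log (1 + ε))
    (n b : ℕ) (p : I) (h : (1 + ε) * n * p + C ≤ b) (W : Finset (Fin n)) (hW : W.Nonempty) :
    (binomialRandom (Fin n) p).real {G | ∀ v ∈ W, b + 1 < (W.filter (G.Adj v)).card} ≤
      Real.exp (-(W.card * (3 + 2 * Real.log (n / W.card)))) := by
  set k := W.card with hk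
  have hk1 : 1 ≤ k := Finset.card_pos.mpr hW
  have hkn : k ≤ n := by simpa using Finset.card_le_univ W
  have hkR : (0 : ℝ) < k := by exact_mod_cast hk1
  have hknR : (k : ℝ) ≤ n := by exact_mod_cast hkn
  have hnR : (0 : ℝ) < n := lt_of_lt_of_le hkR hknR
  have hp0 : (0 : ℝ) ≤ p := p.2.1
  set x : ℝ := Real.log (n / k) with hx
  set L : ℝ := Real.log (1 + ε) with hL
  have hx0 : 0 ≤ x := Real.log_nonneg (by rw [le_div_iff₀ hkR]; linarith)
  have hL0 : 0 < L := Real.log_pos (by linarith)
  set s : ℝ := (1 + ε) * (n / k) with hs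
  have hs1 : 1 ≤ s := by
    have : (1 : ℝ) ≤ n / k := by rw [le_div_iff₀ hkR]; linarith
    nlinarith
  have hlog : Real.log s = L + x := by
    rw [hs, Real.log_mul (by positivity) (by positivity)]
  have key := prob_le p (W.offDiag.image Sym2.mk.uncurry) (by
      intro e he
      obtain ⟨y, hy, rfl⟩ := Finset.mem_image.mp he
      rw [Finset.mem_offDiag] at hy
      simpa [Function.uncurry] using hy.2.2) s
    (Real.exp (-(k * (b + 2) / 2 * (L + x)))) (by linarith) (Real.exp_pos _).le
    {G | ∀ v ∈ W, b + 1 < (W.filter (G.Adj v)).card} (by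
      intro G hG
      set T : Finset (Fin n × Fin n) := (W ×ˢ W).filter (fun y => G.Adj y.1 y.2) with hT
      have h1 : k * (b + 2) ≤ T.card := by
        rw [hT, Finset.card_filter, Finset.sum_product]
        calc k * (b + 2) = ∑ _v ∈ W, (b + 2) := by simp [hk]
          _ ≤ _ := by
            apply Finset.sum_le_sum
            intro v hv
            rw [← Finset.card_filter]
            exact hG v hv
      have h2 : T.card ≤ 2 * (T.image Sym2.mk.uncurry).card := by
        apply Finset.card_le_mul_card_image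
        intro e he
        obtain ⟨y, -, rfl⟩ := Finset.mem_image.mp he
        refine le_trans (Finset.card_le_card (t := {y, y.swap}) ?_) Finset.card_le_two
        intro z hz
        have := (Finset.mem_filter.mp hz).2
        simp only [Function.uncurry, Sym2.eq_iff] at this
        rcases this with ⟨h1, h2⟩ | ⟨h1, h2⟩
        · exact Finset.mem_insert.mpr (Or.inl (Prod.ext h1 h2))
        · exact Finset.mem_insert.mpr (Or.inr (Finset.mem_singleton.mpr (Prod.ext h1 h2)))
      have h3 : (T.image Sym2.mk.uncurry).card ≤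
          ((W.offDiag.image Sym2.mk.uncurry).filter (· ∈ G.edgeSet)).card := by
        apply Finset.card_le_card
        intro e he
        obtain ⟨y, hy, rfl⟩ := Finset.mem_image.mp he
        rw [hT, Finset.mem_filter, Finset.mem_product] at hy
        rw [Finset.mem_filter]
        exact ⟨Finset.mem_image.mpr ⟨y, Finset.mem_offDiag.mpr ⟨hy.1.1, hy.1.2, hy.2.ne⟩, rfl⟩,
          hy.2⟩
      set X := ((W.offDiag.image Sym2.mk.uncurry).filter (· ∈ G.edgeSet)).card with hX
      have h4 : (k : ℝ) * (b + 2) ≤ 2 * X := by exact_mod_cast (by omega : k * (b + 2) ≤ 2 * X)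
      rw [← Real.exp_log (show 0 < s by linarith), ← Real.exp_nat_mul, ← Real.exp_add, hlog]
      apply Real.one_le_exp
      have : 0 ≤ L + x := by linarith
      nlinarith)
  refine key.trans ?_
  rw [Sym2.card_image_offDiag, ← hk]
  have hps : 0 ≤ (p : ℝ) * (s - 1) := mul_nonneg hp0 (by linarith)
  have h1 := one_add_pow_le_exp (x := (p : ℝ) * (s - 1)) (by linarith) (k.choose 2)
  refine (mul_le_mul_of_nonneg_left h1 (Real.exp_pos _).le).trans ?_
  rw [← Real.exp_add]
  apply Real.exp_le_exp.mpr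
  have hN : ((k.choose 2 : ℕ) : ℝ) ≤ k * k / 2 := by
    rw [Nat.cast_choose_two]; nlinarith
  have h2 : ((k.choose 2 : ℕ) : ℝ) * (p * (s - 1)) ≤ k * k / 2 * (p * (s - 1)) :=
    mul_le_mul_of_nonneg_right hN hps
  set d : ℝ := n * p with hd
  have hd0 : 0 ≤ d := by positivity
  have h3 : 1 - x ≤ k / n := by
    have := Real.add_one_le_exp (-x)
    rw [hx, ← Real.log_inv, Real.exp_log (by positivity), inv_div] at this
    rw [hx]
    have e : Real.log (k / n) = -Real.log (n / k) := by
      rw [← Real.log_inv, inv_div]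
    linarith
  have h4 : (k : ℝ) * k / 2 * (p * (s - 1)) = k / 2 * (d * (1 + ε) - d * (k / n)) := by
    rw [hs, hd]; field_simp
  have h5 : d * (1 + ε) - d * (k / n) ≤ d * (ε + x) := by nlinarith
  have h6 : ε ≤ (1 + ε) * L := by
    have := Real.one_sub_inv_le_log_of_pos (show 0 < 1 + ε by linarith)
    rw [← hL] at this
    have e : (1 + ε) * (1 - (1 + ε)⁻¹) = ε := by field_simp; ring
    nlinarith
  have h7 : (1 + ε) * d + C ≤ b + 2 := by rw [hd]; linarith
  have h8 : d * (ε + x) + (6 + 4 * x) ≤ (b + 2) * (L + x) := by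
    have h9 : ((1 + ε) * d + C) * (L + x) ≤ (b + 2) * (L + x) :=
      mul_le_mul_of_nonneg_right h7 (by linarith)
    have h10 : d * ε ≤ d * ((1 + ε) * L) := mul_le_mul_of_nonneg_left h6 hd0
    have h11 : 0 ≤ d * (ε * x) := by positivity
    have h12 : 4 * x ≤ C * x := mul_le_mul_of_nonneg_right hC4 hx0
    nlinarith
  have h9 : (k : ℝ) / 2 * (d * (1 + ε) - d * (k / n)) ≤ k / 2 * (d * (ε + x)) :=
    mul_le_mul_of_nonneg_left h5 (by positivity)
  have h10 := mul_le_mul_of_nonneg_left h8 (show (0 : ℝ) ≤ k / 2 by positivity)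
  nlinarith

theorem term_le (n k : ℕ) (hk1 : 1 ≤ k) (hkn : k ≤ n) :
    (n.choose k : ℝ) * Real.exp (-(k * (3 + 2 * Real.log (n / k)))) ≤ (1 / 2) ^ k / n := by
  have hkR : (0 : ℝ) < k := by exact_mod_cast hk1
  have hknR : (k : ℝ) ≤ n := by exact_mod_cast hkn
  have hnR : (0 : ℝ) < n := lt_of_lt_of_le hkR hknR
  set x : ℝ := Real.log (n / k) with hx
  have hx0 : 0 ≤ x := Real.log_nonneg (by rw [le_div_iff₀ hkR]; linarith)
  have hex : Real.exp x = n / k := Real.exp_log (by positivity)
  have h1 : (n.choose k : ℝ) ≤ Real.exp (k * (1 + x)) := by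
    have h2 : (n.choose k : ℝ) ≤ (n : ℝ) ^ k / k.factorial := by
      have := Nat.choose_le_pow_div (α := ℝ) k n
      simpa using this
    have h3 := Real.pow_div_factorial_le_exp (k : ℝ) hkR.le k
    have h4 : (n : ℝ) ^ k / k.factorial = (n / k) ^ k * ((k : ℝ) ^ k / k.factorial) := by
      rw [div_pow]; field_simp
    rw [mul_add, mul_one, Real.exp_add, Real.exp_nat_mul, hex, mul_comm]
    rw [h4] at h2
    exact h2.trans (mul_le_mul_of_nonneg_left h3 (by positivity))
  refine (mul_le_mul_of_nonneg_right h1 (Real.exp_pos _).le).trans ?_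
  rw [← Real.exp_add]
  have hk1R : (1 : ℝ) ≤ k := by exact_mod_cast hk1
  have h5 : Real.exp (k * (1 + x) + -(k * (3 + 2 * x))) ≤
      Real.exp (-k) * Real.exp (-k) * Real.exp (-x) := by
    rw [← Real.exp_add, ← Real.exp_add]
    apply Real.exp_le_exp.mpr
    nlinarith
  refine h5.trans ?_
  have h6 : Real.exp (-(k : ℝ)) ≤ (1 / 2) ^ k := by
    rw [show -(k : ℝ) = k * (-1) by ring, Real.exp_nat_mul]
    apply pow_le_pow_left₀ (Real.exp_pos _).le
    rw [Real.exp_neg, inv_le_comm₀ (Real.exp_pos _) (by norm_num)]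
    have := Real.add_one_le_exp (1 : ℝ)
    norm_num
    linarith
  have h7 : Real.exp (-(k : ℝ)) * Real.exp (-x) ≤ 1 / n := by
    rw [Real.exp_neg, Real.exp_neg, hex, inv_div]
    have := Real.add_one_le_exp (k : ℝ)
    have h8 := Real.exp_pos (k : ℝ)
    rw [inv_mul_eq_div, div_div, div_le_div_iff₀ (by positivity) hnR]
    nlinarith
  calc Real.exp (-k) * Real.exp (-k) * Real.exp (-x)
      = Real.exp (-k) * (Real.exp (-k) * Real.exp (-x)) := by ring
    _ ≤ (1 / 2) ^ k * (1 / n) := mul_le_mul h6 h7 (by positivity) (by positivity)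
    _ = _ := by ring

theorem prob_wins_le (strict : Bool) {ε C : ℝ} (hε : 0 < ε) (hC4 : 4 ≤ C)
    (hCL : 6 ≤ C * Real.log (1 + ε)) (n b : ℕ) (p : I) (h : (1 + ε) * n * p + C ≤ b) :
    (binomialRandom (Fin n) p).real {G | MakerWins strict b G ∅} ≤ 2 / n := by
  classical
  have hb : 1 ≤ b := by
    have : (0 : ℝ) ≤ (1 + ε) * n * p := by have := p.2.1; positivity
    have : (1 : ℝ) ≤ b := by linarith
    exact_mod_cast this
  have hsub : {G : SimpleGraph (Fin n) | MakerWins strict b G ∅} ⊆
      ⋃ W ∈ (Finset.univ : Finset (Fin n)).powerset,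
        {G | W.Nonempty ∧ ∀ v ∈ W, b + 1 < (W.filter (G.Adj v)).card} := by
    intro G hG
    by_contra hcon
    apply not_makerWins_of_degenerate hb _ hG
    intro W hW
    by_contra hcon2
    push Not at hcon2
    apply hcon
    simp only [Set.mem_iUnion]
    exact ⟨W, by simp, hW, hcon2⟩
  refine (measureReal_mono hsub (measure_ne_top _ _)).trans ((measureReal_biUnion_finset_le _ _).trans ?_)
  set φ : ℕ → ℝ := fun k => if k = 0 then 0 else Real.exp (-(k * (3 + 2 * Real.log (n / k))))
    with hφ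
  have h1 : ∑ W ∈ (Finset.univ : Finset (Fin n)).powerset, (binomialRandom (Fin n) p).real
      {G | W.Nonempty ∧ ∀ v ∈ W, b + 1 < (W.filter (G.Adj v)).card} ≤
      ∑ W ∈ (Finset.univ : Finset (Fin n)).powerset, φ W.card := by
    apply Finset.sum_le_sum
    intro W _
    rcases W.eq_empty_or_nonempty with rfl | hW
    · simp [hφ]
    · have := prob_dense_set hε hC4 hCL n b p h W hW
      simp only [hφ, hW, true_and, if_neg (Finset.card_pos.mpr hW).ne']
      exact this
  refine h1.trans ?_
  rw [Finset.sum_powerset_apply_card, Finset.card_univ, Fintype.card_fin]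
  calc ∑ k ∈ Finset.range (n + 1), n.choose k • φ k
      ≤ ∑ k ∈ Finset.range (n + 1), (1 / 2 : ℝ) ^ k / n := by
        apply Finset.sum_le_sum
        intro k hk
        rw [nsmul_eq_mul, hφ]
        by_cases hk0 : k = 0
        · simp [hk0]
        · simp only [if_neg hk0]
          exact term_le n k (by omega) (by have := Finset.mem_range.mp hk; omega)
    _ ≤ 2 / n := by
        rw [← Finset.sum_div]
        apply div_le_div_of_nonneg_right _ (Nat.cast_nonneg _)
        exact sum_geometric_two_le _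

theorem upper_tendsto {ε : ℝ} (hε : 0 < ε) : ∃ C : ℝ, ∀ (strict : Bool) (p : ℕ → I) (b : ℕ → ℕ),
    (∀ᶠ n : ℕ in atTop, (1 + ε) * n * p n + C ≤ b n) →
    Tendsto (fun n : ℕ => (binomialRandom (Fin n) (p n)).real {G | MakerWins strict (b n) G ∅})
      atTop (𝓝 0) := by
  have hL : 0 < Real.log (1 + ε) := Real.log_pos (by linarith)
  refine ⟨max 4 (6 / Real.log (1 + ε)), fun strict p b h => ?_⟩
  apply squeeze_zero' (Eventually.of_forall fun _ => measureReal_nonneg) _
    (tendsto_const_div_atTop_nhds_zero_nat 2)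
  filter_upwards [h] with n hn
  apply prob_wins_le strict hε (le_max_left _ _) _ n (b n) (p n) hn
  rw [← div_le_iff₀ hL]
  exact le_max_right _ _

end Pool.Agent.MP_0b991d_co
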