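import Pool.Agent.MP_0b991d_co.Lower

namespace Pool.Agent.MP_0b991d_co

variable {V : Type} [DecidableEq V] [Fintype V] {G : SimpleGraph V} {strict : Bool} {b : ℕ}

def Own (G : SimpleGraph V) (ρ : V → ℕ) (w x : V) : Prop := G.Adj w x ∧ ρ x < ρ w

def Full (G : SimpleGraph V) (ρ : V → ℕ) (D : Finset (V × V)) (r : ℕ) : Prop :=
  ∀ x y, ρ x < r → ρ y < r → s(x, y) ∉ undirected G D

def Typ (G : SimpleGraph V) (ρ : V → ℕ) (D : Finset (V × V)) (f : V → ℝ) (w : V) : Prop :=
  (f w = ρ w ∧ ∀ x, Own G ρ w x → s(w, x) ∈ undirected G D) ∨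
  (|f w| = ρ w ∧ ∀ x, Own G ρ w x → s(w, x) ∉ undirected G D) ∨
  (Full G ρ D (ρ w) ∧ ∀ y, Own G ρ w y → s(w, y) ∈ undirected G D →
    f w = ρ w ∧ ∀ x, Own G ρ w x → s(w, x) ∉ undirected G D → f x < f y)

structure Inv (G : SimpleGraph V) (ρ : V → ℕ) (D : Finset (V × V)) (f : V → ℝ) : Prop where
  inj : Function.Injective f
  bd : ∀ w, |f w| ≤ ρ w
  inc : ∀ x ∈ D, G.Adj x.1 x.2 ∧ f x.1 < f x.2
  typ : ∀ w, Typ G ρ D f w

def Orients (G : SimpleGraph V) (D S : Finset (V × V)) : Prop :=
  (∀ x ∈ S, s(x.1, x.2) ∈ undirected G D) ∧ Set.InjOn (fun x : V × V => s(x.1, x.2)) S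

variable {ρ : V → ℕ} {D : Finset (V × V)} {f : V → ℝ}

omit [DecidableEq V] [Fintype V] in
theorem Inv.acyclic (h : Inv G ρ D f) : ¬ HasDirCycle D := by
  rintro ⟨v, hv⟩
  have : ∀ a c, Relation.TransGen (fun x y => (x, y) ∈ D) a c → f a < f c := by
    intro a c hac
    induction hac with
    | single h1 => exact (h.inc _ h1).2
    | tail _ h1 ih => exact ih.trans (h.inc _ h1).2
  exact lt_irrefl _ (this v v hv)

omit [DecidableEq V] [Fintype V] in
theorem Full.mono {D' : Finset (V × V)} {r : ℕ} (h : Full G ρ D r) (hD : D ⊆ D') :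
    Full G ρ D' r := fun x y hx hy hu => h x y hx hy (undirected_anti hD hu)

omit [DecidableEq V] [Fintype V] in
theorem Inv.top (h : Inv G ρ D f) {w y : V} (ho : Own G ρ w y)
    (hu : s(w, y) ∈ undirected G D) : f w = ρ w := by
  rcases h.typ w with h1 | h1 | h1
  · exact h1.1
  · exact absurd hu (h1.2 y ho)
  · exact (h1.2 y ho hu).1

omit [DecidableEq V] [Fintype V] in
theorem own_unique {w x z y : V} (h1 : Own G ρ w x) (h2 : Own G ρ z y) (e : s(w, x) = s(z, y)) :
    w = z ∧ x = y := by
  rcases Sym2.eq_iff.mp e with ⟨rfl, rfl⟩ | ⟨rfl, rfl⟩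
  · exact ⟨rfl, rfl⟩
  · exact absurd h1.2 (not_lt.mpr h2.2.le)

omit [DecidableEq V] [Fintype V] in
theorem not_und_of_mem {x : V × V} (hx : x ∈ D) : s(x.1, x.2) ∉ undirected G D :=
  fun h => h.2 x hx rfl

omit [Fintype V] in
theorem typ_other {C : Finset (V × V)} {f' : V → ℝ} {w y₀ z : V} (h : Inv G ρ D f)
    (ho : Own G ρ w y₀) (hu : s(w, y₀) ∈ undirected G D)
    (hC : ∀ x ∈ C, ∃ y, Own G ρ w y ∧ s(x.1, x.2) = s(w, y))
    (hf : ∀ z, z ≠ w → f' z = f z) (hz : z ≠ w) : Typ G ρ (D ∪ C) f' z := by
  have hiff : ∀ x, Own G ρ z x →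
      (s(z, x) ∈ undirected G (D ∪ C) ↔ s(z, x) ∈ undirected G D) := by
    intro x hx
    rw [mem_undirected_union]
    refine ⟨fun h => h.1, fun h => ⟨h, fun c hc e => ?_⟩⟩
    obtain ⟨y, hy, e'⟩ := hC c hc
    exact hz (own_unique hx hy (e.symm.trans e')).1
  rcases h.typ z with h1 | h1 | h1
  · left
    exact ⟨by rw [hf z hz]; exact h1.1, fun x hx => (hiff x hx).mpr (h1.2 x hx)⟩
  · right; left
    exact ⟨by rw [hf z hz]; exact h1.1, fun x hx hc => h1.2 x hx ((hiff x hx).mp hc)⟩
  · right; right
    have hne : ∀ x, Own G ρ z x → x ≠ w := by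
      rintro x hx rfl
      exact h1.1 x y₀ hx.2 (ho.2.trans hx.2) hu
    refine ⟨h1.1.mono Finset.subset_union_left, fun y hy huy => ?_⟩
    have h2 := h1.2 y hy ((hiff y hy).mp huy)
    refine ⟨by rw [hf z hz]; exact h2.1, fun x hx hux => ?_⟩
    rw [hf x (hne x hx), hf y (hne y hy)]
    exact h2.2 x hx fun hc => hux ((hiff x hx).mpr hc)

open Classical in
/-- All undirected edges owned by w, oriented increasingly for g. -/
noncomputable def complete (G : SimpleGraph V) (ρ : V → ℕ) (D : Finset (V × V)) (g : V → ℝ)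
    (w : V) : Finset (V × V) :=
  (Finset.univ.filter fun y => Own G ρ w y ∧ s(w, y) ∈ undirected G D).image
    fun y => if g y < g w then (y, w) else (w, y)

theorem mem_complete {g : V → ℝ} {w : V} {x : V × V} : x ∈ complete G ρ D g w ↔
    ∃ y, (Own G ρ w y ∧ s(w, y) ∈ undirected G D) ∧
      (if g y < g w then (y, w) else (w, y)) = x := by
  classical
  simp [complete]

theorem complete_edge {g : V → ℝ} {w : V} {x : V × V} (hx : x ∈ complete G ρ D g w) :
    ∃ y, Own G ρ w y ∧ s(w, y) ∈ undirected G D ∧ s(x.1, x.2) = s(w, y) ∧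
      (if g y < g w then (y, w) else (w, y)) = x := by
  obtain ⟨y, ⟨h1, h2⟩, h3⟩ := mem_complete.mp hx
  refine ⟨y, h1, h2, ?_, h3⟩
  rw [← h3]
  split_ifs
  · exact Sym2.eq_swap
  · rfl

theorem complete_orients {g : V → ℝ} {w : V} : Orients G D (complete G ρ D g w) := by
  constructor
  · intro x hx
    obtain ⟨y, -, h2, h3, -⟩ := complete_edge hx
    rw [h3]; exact h2
  · intro x hx x' hx' e
    obtain ⟨y, h1, -, h3, h4⟩ := complete_edge (Finset.mem_coe.mp hx)
    obtain ⟨y', h1', -, h3', h4'⟩ := complete_edge (Finset.mem_coe.mp hx')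
    have : y = y' := (own_unique h1 h1' (h3.symm.trans (Eq.trans e h3'))).2
    subst this
    exact h4.symm.trans h4'

theorem reassign (hρ : Function.Injective ρ) (h : Inv G ρ D f) {w y₀ : V} (ho : Own G ρ w y₀)
    (hu : s(w, y₀) ∈ undirected G D) {a : ℝ} (ha1 : |a| ≤ ρ w) (ha2 : ∀ z, z ≠ w → f z ≠ a)
    (ha3 : ∀ x, Own G ρ w x → s(w, x) ∉ undirected G D → f x < a)
    (ha4 : |a| = ρ w ∨ Full G ρ D (ρ w)) :
    Inv G ρ (D ∪ complete G ρ D (Function.update f w a) w) (Function.update f w a) := by
  set f' := Function.update f w a with hf'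
  have hfw : f' w = a := Function.update_self ..
  have hfz : ∀ z, z ≠ w → f' z = f z := fun z hz => Function.update_of_ne hz ..
  have htop := h.top ho hu
  have hinj : Function.Injective f' := by
    intro x y e
    by_cases hx : x = w <;> by_cases hy : y = w
    · rw [hx, hy]
    · rw [hx, hfw, hfz y hy] at e
      exact absurd e.symm (ha2 y hy)
    · rw [hy, hfw, hfz x hx] at e
      exact absurd e (ha2 x hx)
    · rw [hfz x hx, hfz y hy] at e
      exact h.inj e
  have hhigh : ∀ z, G.Adj z w → s(z, w) ∉ undirected G D → ρ w < ρ z → |f z| = ρ z := by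
    intro z hadj hd hlt
    rcases h.typ z with h1 | h1 | h1
    · exact absurd (h1.2 w ⟨hadj, hlt⟩) hd
    · exact h1.1
    · exact absurd hu (h1.1 w y₀ hlt (ho.2.trans hlt))
  refine ⟨hinj, fun z => ?_, fun x hx => ?_, fun z => ?_⟩
  · by_cases hz : z = w
    · rw [hz, hfw]; exact ha1
    · rw [hfz z hz]; exact h.bd z
  · rcases Finset.mem_union.mp hx with hx | hx
    · obtain ⟨p, q⟩ := x
      have h1 := h.inc _ hx
      have h2 : s(p, q) ∉ undirected G D := not_und_of_mem hx
      simp only at h1 ⊢
      refine ⟨h1.1, ?_⟩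
      have hab := abs_le.mp ha1
      by_cases hp : p = w
      · subst hp
        have hq : q ≠ p := h1.1.ne.symm
        rw [hfw, hfz q hq]
        rcases lt_trichotomy (ρ q) (ρ p) with hlt | heq | hlt
        · have := (abs_le.mp (h.bd q)).2
          have : (ρ q : ℝ) < ρ p := by exact_mod_cast hlt
          linarith [h1.2]
        · exact absurd (hρ heq) hq
        · have h3 := hhigh q h1.1.symm (by rw [Sym2.eq_swap]; exact h2) hlt
          have h4 : (ρ p : ℝ) < ρ q := by exact_mod_cast hlt
          have h5 : (0 : ℝ) ≤ ρ p := Nat.cast_nonneg _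
          rw [abs_of_pos (by linarith [h1.2])] at h3
          linarith
      · by_cases hq : q = w
        · subst hq
          rw [hfw, hfz p hp]
          rcases lt_trichotomy (ρ p) (ρ q) with hlt | heq | hlt
          · exact ha3 p ⟨h1.1.symm, hlt⟩ (by rw [Sym2.eq_swap]; exact h2)
          · exact absurd (hρ heq) hp
          · have h3 := hhigh p h1.1 h2 hlt
            have h4 : (ρ q : ℝ) < ρ p := by exact_mod_cast hlt
            rcases abs_cases (f p) with h5 | h5
            · linarith [h1.2, h5.1]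
            · linarith [h5.1]
        · rw [hfz p hp, hfz q hq]; exact h1.2
    · obtain ⟨y, h1, -, -, h4⟩ := complete_edge hx
      rw [← h4]
      split_ifs with hlt
      · exact ⟨h1.1.symm, hlt⟩
      · refine ⟨h1.1, lt_of_le_of_ne (not_lt.mp hlt) fun e => h1.1.ne (hinj e)⟩
  · by_cases hz : z = w
    · subst hz
      have hall : ∀ x, Own G ρ z x → s(z, x) ∉ undirected G (D ∪ complete G ρ D f' z) := by
        intro x hx hc
        rw [mem_undirected_union] at hc
        have hm : (if f' x < f' z then (x, z) else (z, x)) ∈ complete G ρ D f' z :=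
          mem_complete.mpr ⟨x, ⟨hx, hc.1⟩, rfl⟩
        apply hc.2 _ hm
        split_ifs
        · exact Sym2.eq_swap
        · rfl
      rcases ha4 with h4 | h4
      · right; left
        exact ⟨by rw [hfw]; exact h4, hall⟩
      · right; right
        exact ⟨h4.mono Finset.subset_union_left, fun y hy hc => absurd hc (hall y hy)⟩
    · apply typ_other h ho hu _ hfz hz
      intro x hx
      obtain ⟨y, h1, -, h3, -⟩ := complete_edge hx
      exact ⟨y, h1, h3⟩

omit [DecidableEq V] in
theorem exists_gap (f : V → ℝ) (t : ℝ) :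
    ∃ δ : ℝ, 0 < δ ∧ δ ≤ 1 ∧ ∀ z, f z < t → f z < t - δ := by
  classical
  rcases (Finset.univ.filter fun z => f z < t).eq_empty_or_nonempty with he | hne
  · refine ⟨1, one_pos, le_rfl, fun z hz => ?_⟩
    have : z ∈ Finset.univ.filter fun z => f z < t := by simp [hz]
    rw [he] at this
    simp at this
  · obtain ⟨z₀, hz₀, hmax⟩ := Finset.exists_max_image _ f hne
    have h0 : f z₀ < t := by simpa using hz₀
    refine ⟨min 1 ((t - f z₀) / 2), lt_min one_pos (by linarith), min_le_left _ _, fun z hz => ?_⟩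
    have h1 := hmax z (by simp [hz])
    have h2 := min_le_right 1 ((t - f z₀) / 2)
    linarith

open Classical in
theorem respond (hρ : Function.Injective ρ)
    (hdeg : ∀ w, (Finset.univ.filter fun y => Own G ρ w y).card ≤ b + 1)
    (h : Inv G ρ D f) {x : V × V} (hx : s(x.1, x.2) ∈ undirected G D) :
    ∃ S f', Orients G (insert x D) S ∧ S.card ≤ b ∧ Inv G ρ (insert x D ∪ S) f' := by
  obtain ⟨u, v⟩ := x
  have hadj : G.Adj u v := G.mem_edgeSet.mp hx.1
  have main : ∀ (w : V) (f' : V → ℝ), (u, v) ∈ complete G ρ D f' w →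
      Inv G ρ (D ∪ complete G ρ D f' w) f' →
      ∃ S f', Orients G (insert (u, v) D) S ∧ S.card ≤ b ∧ Inv G ρ (insert (u, v) D ∪ S) f' := by
    intro w f' hm hinv
    have hor : Orients G D (complete G ρ D f' w) := complete_orients
    refine ⟨(complete G ρ D f' w).erase (u, v), f', ⟨fun c hc => ?_, ?_⟩, ?_, ?_⟩
    · rw [Finset.mem_erase] at hc
      rw [mem_undirected_insert]
      exact ⟨hor.1 c hc.2, fun e => hc.1 (hor.2 hc.2 hm e.symm)⟩
    · exact hor.2.mono (by simp)
    · rw [Finset.card_erase_of_mem hm]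
      have h1 : (complete G ρ D f' w).card ≤ b + 1 := by
        refine Finset.card_image_le.trans (le_trans (Finset.card_le_card ?_) (hdeg w))
        intro y hy
        simp only [Finset.mem_filter, Finset.mem_univ, true_and] at hy ⊢
        exact hy.1
      omega
    · have : insert (u, v) D ∪ (complete G ρ D f' w).erase (u, v) = D ∪ complete G ρ D f' w := by
        ext c
        simp only [Finset.mem_union, Finset.mem_insert, Finset.mem_erase]
        constructor
        · rintro ((rfl | h1) | h1)
          · exact Or.inr hm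
          · exact Or.inl h1
          · exact Or.inr h1.2
        · rintro (h1 | h1)
          · exact Or.inl (Or.inr h1)
          · by_cases hc : c = (u, v)
            · exact Or.inl (Or.inl hc)
            · exact Or.inr ⟨hc, h1⟩
      rw [this]
      exact hinv
  have hlow : ∀ w y, Own G ρ w y → -(ρ w : ℝ) + 1 ≤ f y ∧ f y < ρ w := by
    intro w y hy
    have h1 := abs_le.mp (h.bd y)
    have h2 : (ρ y : ℝ) + 1 ≤ ρ w := by exact_mod_cast hy.2
    constructor <;> linarith
  rcases lt_trichotomy (ρ u) (ρ v) with hlt | heq | hlt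
  · have ho : Own G ρ v u := ⟨hadj.symm, hlt⟩
    have hu : s(v, u) ∈ undirected G D := by rw [Sym2.eq_swap]; exact hx
    have htop := h.top ho hu
    have hinv := reassign hρ h ho hu (a := ρ v) (by simp)
      (fun z hz e => hz (h.inj (e.trans htop.symm))) (fun x hx _ => (hlow v x hx).2)
      (Or.inl (by simp))
    refine main v _ (mem_complete.mpr ⟨u, ⟨ho, hu⟩, ?_⟩) hinv
    rw [if_pos]
    rw [Function.update_self, Function.update_of_ne hadj.ne]
    exact (hlow v u ho).2
  · exact absurd (hρ heq) hadj.ne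
  · have ho : Own G ρ u v := ⟨hadj, hlt⟩
    have hu : s(u, v) ∈ undirected G D := hx
    have htop := h.top ho hu
    by_cases hfull : Full G ρ D (ρ u)
    · obtain ⟨δ, hδ0, hδ1, hδ⟩ := exists_gap f (f v)
      have hl := hlow u v ho
      have hinv := reassign hρ h ho hu (a := f v - δ) (abs_le.mpr ⟨by linarith, by linarith⟩)
        (fun z _ e => by
          have := hδ z (by linarith)
          linarith) (fun x hx hd => by
          apply hδ
          rcases h.typ u with h1 | h1 | h1
          · exact absurd (h1.2 x hx) hd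
          · exact absurd hu (h1.2 v ho)
          · exact (h1.2 v ho hu).2 x hx hd) (Or.inr hfull)
      refine main u _ (mem_complete.mpr ⟨v, ⟨ho, hu⟩, ?_⟩) hinv
      rw [if_neg]
      rw [Function.update_self, Function.update_of_ne hadj.ne.symm]
      linarith
    · have hall : ∀ x, Own G ρ u x → s(u, x) ∈ undirected G D := by
        rcases h.typ u with h1 | h1 | h1
        · exact h1.2
        · exact absurd hu (h1.2 v ho)
        · exact absurd h1.1 hfull
      have hinv := reassign hρ h ho hu (a := -(ρ u : ℝ)) (by simp)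
        (fun z hz e => by
          rcases lt_trichotomy (ρ z) (ρ u) with h2 | h2 | h2
          · have h3 := (abs_le.mp (h.bd z)).1
            have : (ρ z : ℝ) < ρ u := by exact_mod_cast h2
            linarith
          · exact hz (hρ h2)
          · have h3 : (ρ u : ℝ) < ρ z := by exact_mod_cast h2
            have h4 : (0 : ℝ) ≤ ρ u := Nat.cast_nonneg _
            rcases h.typ z with h1 | h1 | h1
            · linarith [h1.1]
            · have := h1.1
              rw [e, abs_neg, abs_of_nonneg h4] at this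
              linarith
            · exact h1.1 u v h2 (ho.2.trans h2) hu)
        (fun x hx hd => absurd (hall x hx) hd) (Or.inl (by simp))
      refine main u _ (mem_complete.mpr ⟨v, ⟨ho, hu⟩, ?_⟩) hinv
      rw [if_neg]
      rw [Function.update_self, Function.update_of_ne hadj.ne.symm]
      have := (hlow u v ho).1
      linarith

theorem extra (hρ : Function.Injective ρ) (h : Inv G ρ D f) (hne : (undirected G D).Nonempty) :
    ∃ x : V × V, s(x.1, x.2) ∈ undirected G D ∧ Inv G ρ (D ∪ {x}) f := by
  classical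
  have hown : ∀ x y, s(x, y) ∈ undirected G D →
      (Own G ρ x y ∧ s(x, y) ∈ undirected G D) ∨ (Own G ρ y x ∧ s(y, x) ∈ undirected G D) := by
    intro x y hxy
    have hadj : G.Adj x y := G.mem_edgeSet.mp hxy.1
    rcases lt_trichotomy (ρ x) (ρ y) with hlt | heq | hlt
    · right; exact ⟨⟨hadj.symm, hlt⟩, by rw [Sym2.eq_swap]; exact hxy⟩
    · exact absurd (hρ heq) hadj.ne
    · left; exact ⟨⟨hadj, hlt⟩, hxy⟩
  have hne' : (Finset.univ.filter fun w => ∃ y, Own G ρ w y ∧
      s(w, y) ∈ undirected G D).Nonempty := by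
    obtain ⟨e, he⟩ := hne
    induction e using Sym2.ind with
    | _ x y =>
      rcases hown x y he with h1 | h1
      · exact ⟨x, by simp only [Finset.mem_filter, Finset.mem_univ, true_and]; exact ⟨y, h1⟩⟩
      · exact ⟨y, by simp only [Finset.mem_filter, Finset.mem_univ, true_and]; exact ⟨x, h1⟩⟩
  obtain ⟨m, hm, hmin⟩ := Finset.exists_min_image _ ρ hne'
  simp only [Finset.mem_filter, Finset.mem_univ, true_and] at hm hmin
  have hfull : Full G ρ D (ρ m) := by
    intro x y hx hy hxy
    rcases hown x y hxy with h1 | h1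
    · exact absurd (hmin x ⟨y, h1⟩) (not_le.mpr hx)
    · exact absurd (hmin y ⟨x, h1⟩) (not_le.mpr hy)
  obtain ⟨y, hy, hymin⟩ := Finset.exists_min_image (Finset.univ.filter fun y => Own G ρ m y ∧
      s(m, y) ∈ undirected G D) f (by
        obtain ⟨y, hy⟩ := hm
        exact ⟨y, by simp only [Finset.mem_filter, Finset.mem_univ, true_and]; exact hy⟩)
  simp only [Finset.mem_filter, Finset.mem_univ, true_and] at hy hymin
  have htop := h.top hy.1 hy.2
  refine ⟨(y, m), by rw [Sym2.eq_swap]; exact hy.2, h.inj, h.bd, fun x hx => ?_, fun z => ?_⟩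
  · rcases Finset.mem_union.mp hx with hx | hx
    · exact h.inc x hx
    · rw [Finset.mem_singleton.mp hx]
      refine ⟨hy.1.1.symm, ?_⟩
      have h1 := (abs_le.mp (h.bd y)).2
      have h2 : (ρ y : ℝ) < ρ m := by exact_mod_cast hy.1.2
      simp only
      linarith
  · by_cases hz : z = m
    · subst hz
      right; right
      refine ⟨hfull.mono Finset.subset_union_left, fun y' hy' hu' => ⟨htop, fun x hx hd => ?_⟩⟩
      rw [mem_undirected_union] at hu' hd
      by_cases hxu : s(z, x) ∈ undirected G D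
      · have hxy : x = y := by
          by_contra hne
          apply hd
          refine ⟨hxu, fun c hc e => hne ?_⟩
          rw [Finset.mem_singleton.mp hc] at e
          exact (own_unique hx hy.1 (e.symm.trans Sym2.eq_swap)).2
        subst hxy
        refine lt_of_le_of_ne (hymin y' ⟨hy', hu'.1⟩) fun e => ?_
        have := h.inj e
        subst this
        exact hu'.2 (x, z) (Finset.mem_singleton_self _) Sym2.eq_swap
      · rcases h.typ z with h1 | h1 | h1
        · exact absurd (h1.2 x hx) hxu
        · exact absurd hy.2 (h1.2 y hy.1)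
        · exact (h1.2 y' hy' hu'.1).2 x hx hxu
    · apply typ_other h hy.1 hy.2 _ (fun _ _ => rfl) hz
      intro x hx
      rw [Finset.mem_singleton.mp hx]
      exact ⟨y, hy.1, Sym2.eq_swap⟩

theorem Orients.ncard {S : Finset (V × V)} (h : Orients G D S) :
    (undirected G (D ∪ S)).ncard + S.card = (undirected G D).ncard := by
  have h1 : undirected G D = undirected G (D ∪ S) ∪ (fun x : V × V => s(x.1, x.2)) '' S := by
    ext e
    rw [Set.mem_union, mem_undirected_union]
    constructor
    · intro he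
      by_cases him : e ∈ (fun x : V × V => s(x.1, x.2)) '' S
      · exact Or.inr him
      · exact Or.inl ⟨he, fun x hx e' => him ⟨x, hx, e'⟩⟩
    · rintro (he | ⟨x, hx, rfl⟩)
      · exact he.1
      · exact h.1 x hx
  have h2 : Disjoint (undirected G (D ∪ S)) ((fun x : V × V => s(x.1, x.2)) '' S) := by
    rw [Set.disjoint_left]
    rintro e he ⟨x, hx, rfl⟩
    exact (mem_undirected_union.mp he).2 x hx rfl
  rw [h1, Set.ncard_union_eq h2, h.2.ncard_image, Set.ncard_coe_finset]

theorem extend (hρ : Function.Injective ρ) (t k : ℕ) (ht : t ≤ (undirected G D).ncard) :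
    ∀ S : Finset (V × V), S.card + k = t → Orients G D S → Inv G ρ (D ∪ S) f →
    ∃ S', S'.card = t ∧ Orients G D S' ∧ Inv G ρ (D ∪ S') f := by
  induction k with
  | zero => exact fun S h1 h2 h3 => ⟨S, h1, h2, h3⟩
  | succ k ih =>
    intro S h1 h2 h3
    have h4 := h2.ncard
    obtain ⟨x, hx, hinv⟩ := extra hρ h3 (by
      rw [← Set.ncard_pos]
      omega)
    rw [mem_undirected_union] at hx
    have hxS : x ∉ S := fun hc => hx.2 x hc rfl
    refine ih (insert x S) (by rw [Finset.card_insert_of_notMem hxS]; omega) ⟨?_, ?_⟩ ?_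
    · intro c hc
      rcases Finset.mem_insert.mp hc with rfl | hc
      · exact hx.1
      · exact h2.1 c hc
    · rw [Finset.coe_insert]
      apply (Set.injOn_insert (by simpa using hxS)).mpr
      refine ⟨h2.2, ?_⟩
      rintro ⟨c, hc, e⟩
      exact hx.2 c hc e
    · have : D ∪ insert x S = D ∪ S ∪ {x} := by
        ext c
        simp only [Finset.mem_union, Finset.mem_insert, Finset.mem_singleton]
        tauto
      rw [this]
      exact hinv

open Classical in
theorem not_wins_of_inv (hρ : Function.Injective ρ) (hb : 1 ≤ b)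
    (hdeg : ∀ w, (Finset.univ.filter fun y => Own G ρ w y).card ≤ b + 1)
    (hw : MakerWins strict b G D) : ∀ f, ¬ Inv G ρ D f := by
  induction hw with
  | finished D _ hc => exact fun f h => h.acyclic hc
  | move D x hx _ ih =>
    intro f h
    obtain ⟨S, f', h1, h2, h3⟩ := respond hρ hdeg h hx
    have h4 := h1.ncard
    obtain ⟨S', h5, h6, h7⟩ := extend hρ (min b (undirected G (insert x D)).ncard)
      (min b (undirected G (insert x D)).ncard - S.card) (min_le_right _ _) S
      (by have : S.card ≤ min b (undirected G (insert x D)).ncard := le_min h2 (by omega)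
          omega) h1 h3
    refine ih S' ⟨h6.1, h6.2, ?_⟩ f' h7
    cases strict
    · simp only [Bool.false_eq_true, if_false]
      rw [h5]
      exact ⟨min_le_min_right _ hb, min_le_left _ _⟩
    · simp only [if_true]
      exact h5

open Classical in
theorem exists_rank (k : ℕ)
    (hdeg : ∀ W : Finset V, W.Nonempty → ∃ v ∈ W, (W.filter (G.Adj v)).card ≤ k) :
    ∃ ρ : V → ℕ, Function.Injective ρ ∧
      ∀ w, (Finset.univ.filter fun y => Own G ρ w y).card ≤ k := by
  have main : ∀ n : ℕ, ∀ W : Finset V, W.card = n → ∃ ρ : V → ℕ, Set.InjOn ρ W ∧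
      (∀ w ∈ W, ρ w < n) ∧ ∀ w ∈ W, (W.filter fun y => Own G ρ w y).card ≤ k := by
    intro n
    induction n with
    | zero =>
      intro W hW
      rw [Finset.card_eq_zero.mp hW]
      exact ⟨fun _ => 0, by simp, by simp, by simp⟩
    | succ n ih =>
      intro W hW
      obtain ⟨v, hv, hvk⟩ := hdeg W (Finset.card_pos.mp (by omega))
      obtain ⟨ρ, h1, h2, h3⟩ := ih (W.erase v) (by rw [Finset.card_erase_of_mem hv]; omega)
      have hu : ∀ z, z ≠ v → Function.update ρ v n z = ρ z :=
        fun z hz => Function.update_of_ne hz ..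
      refine ⟨Function.update ρ v n, ?_, ?_, ?_⟩
      · intro x hx y hy e
        by_cases hxv : x = v <;> by_cases hyv : y = v
        · rw [hxv, hyv]
        · rw [hxv, Function.update_self, hu y hyv] at e
          have := h2 y (Finset.mem_erase.mpr ⟨hyv, hy⟩)
          omega
        · rw [hyv, Function.update_self, hu x hxv] at e
          have := h2 x (Finset.mem_erase.mpr ⟨hxv, hx⟩)
          omega
        · rw [hu x hxv, hu y hyv] at e
          exact h1 (Finset.mem_coe.mpr (Finset.mem_erase.mpr ⟨hxv, hx⟩))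
            (Finset.mem_coe.mpr (Finset.mem_erase.mpr ⟨hyv, hy⟩)) e
      · intro w hw
        by_cases hwv : w = v
        · rw [hwv, Function.update_self]; omega
        · rw [hu w hwv]
          have := h2 w (Finset.mem_erase.mpr ⟨hwv, hw⟩)
          omega
      · intro w hw
        by_cases hwv : w = v
        · refine le_trans (Finset.card_le_card ?_) hvk
          intro y hy
          rw [Finset.mem_filter] at hy ⊢
          exact ⟨hy.1, hwv ▸ hy.2.1⟩
        · have hw' := Finset.mem_erase.mpr ⟨hwv, hw⟩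
          refine le_trans (Finset.card_le_card ?_) (h3 w hw')
          intro y hy
          rw [Finset.mem_filter] at hy ⊢
          have h4 := hy.2.2
          have hyv : y ≠ v := by
            rintro rfl
            rw [Function.update_self, hu w hwv] at h4
            have := h2 w hw'
            omega
          rw [hu y hyv, hu w hwv] at h4
          exact ⟨Finset.mem_erase.mpr ⟨hyv, hy.1⟩, hy.2.1, h4⟩
  obtain ⟨ρ, h1, -, h3⟩ := main _ Finset.univ rfl
  refine ⟨ρ, fun x y e => h1 (by simp) (by simp) e, fun w => h3 w (Finset.mem_univ w)⟩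

open Classical in
/-- OBreaker wins on every (b+1)-degenerate graph. -/
theorem not_makerWins_of_degenerate (hb : 1 ≤ b)
    (hdeg : ∀ W : Finset V, W.Nonempty → ∃ v ∈ W, (W.filter (G.Adj v)).card ≤ b + 1) :
    ¬ MakerWins strict b G ∅ := by
  obtain ⟨ρ, hρ, hd⟩ := exists_rank (b + 1) hdeg
  intro hw
  refine not_wins_of_inv hρ hb hd hw (fun v => ρ v) ⟨?_, by simp, by simp, fun w => ?_⟩
  · intro x y e
    exact hρ (Nat.cast_injective (R := ℝ) e)
  · left
    exact ⟨rfl, fun x hx => ⟨G.mem_edgeSet.mpr hx.1, by simp⟩⟩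

end Pool.Agent.MP_0b991d_co
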